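import Pool.Agent.H37.Contig

set_option autoImplicit false

namespace Pool.Agent.Results.MP_9a6b8c_lc.Contiguous

open Pool.Agent.H37.ERed

/-- Partial one-one and partial many-one reducibility are distinct proper e-reducibilities, and
some nonzero partial many-one degree is a single partial one-one degree. -/
theorem result : ProperERed p1 ∧ ProperERed pm ∧ (∀ A B, Le p1 A B → Le pm A B) ∧
    (∃ A B, Le pm A B ∧ ¬ Le p1 A B) ∧
    ∃ C, ¬ Eqv pm C ∅ ∧ ∀ A B, Eqv pm A C → Eqv pm B C → Eqv p1 A B :=
  ⟨proper_p1, proper_pm, fun _ _ => le_of, distinct, contig⟩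

end Pool.Agent.Results.MP_9a6b8c_lc.Contiguous
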